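import Pool.Agent.H51.ERA.Stmts

set_option autoImplicit false

namespace Pool.Agent.H18.ERA

open Pool.Agent.H51.ERA

theorem tl_ge (s t h : ℕ) : 2 * gg s t ≤ tl s t h := by
  cases h with
  | zero => simp [tl]
  | succ h => simp [tl]

theorem lam_pos (s : ℕ) : 2 ≤ lam s := by
  unfold lam; omega

theorem gg_gt (s t : ℕ) : lam s + t + 3 ≤ gg s t := by
  unfold gg ll; omega

theorem ps_succ {N : Type} (K : List (Sg N)) (j : ℕ) (hj : j < K.length) :
    ps K (j + 1) = ps K j + (K[j]).2.length := by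
  have h : K.take (j + 1) = K.take j ++ [K[j]] := by
    rw [List.take_succ_eq_append_getElem hj]
  unfold ps yl
  rw [h, List.flatMap_append, List.length_append]
  simp

theorem CUTK_thm (hWLEN : WLENStmt) (hLEN : LENStmt) (hROOT : ROOTStmt) (hMK1 : MK1Stmt)
    (hMK2 : MK2Stmt) : CUTKStmt := by
  intro N Q _ L rho sys hgood s t b hs ht hL
  classical
  set w := WW s t b with hw
  have hwl := hWLEN s t b
  let P : List (Sg N) → Prop := fun K =>
    ∃ (i : ℕ) (p : List Bool), IsNode s t i p ∧ p.length < DD t ∧ ¬ Und s t K i p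
  have h1 : ¬ P [(Symbol.nonterminal sys.S, w)] := by
    rintro ⟨i, p, hn, _, hU⟩
    apply hU
    have h2 := (hwl.2 i p hn).2
    have h3 : lo s t i p + 2 * gg s t ≤ hi s t i p := by
      unfold hi
      have := tl_ge s t (DD t - p.length)
      omega
    have h4 := gg_gt s t
    have h5 := lam_pos s
    refine ⟨0, by simp, ?_, ?_, ?_⟩
    · simp [ps, yl]
      rw [hw]
      omega
    · simp [ps, yl]
      omega
    · simp [ps, yl]
      rw [hw]
      omega
  have h2 : ∀ K : List (Sg N), (∀ x ∈ K, x.2.length = 1) → yl K = w → P K := by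
    intro K hK _
    refine ⟨0, [], ⟨by unfold kk; omega, by simp⟩, by simp [DD], ?_⟩
    rintro ⟨j, hj, h3, _, _⟩
    rw [ps_succ K j hj, hK _ (List.getElem_mem hj)] at h3
    have h5 := lam_pos s
    omega
  obtain ⟨q₁, K₁, q, K, hc₁, hc, hy₁, hy, hp₁, hp, hlen⟩ := sys.first w hL P h1 h2
  have hall : ∀ (i : ℕ) (p : List Bool), IsNode s t i p → p.length < DD t → Und s t K₁ i p := by
    intro i p hn hlt
    by_contra h
    exact hp₁ ⟨i, p, hn, hlt, h⟩
  have hM := hLEN N Q L rho sys hgood s t b q₁ K₁ hs hc₁ hy₁ hall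
  refine ⟨q, K, hc, hy, by omega, ?_⟩
  by_cases hroot : ∀ i < kk s, Und s t K i []
  · right
    obtain ⟨i, hi, hO⟩ := hROOT N Q L rho sys hgood s t b q K hs hc hy hroot
    obtain ⟨mC, hmC⟩ := hMK2 s t b N K i (sys.ne q K hc) hy hi hO
    obtain ⟨i', p, hn, hlt, hU⟩ := hp
    obtain ⟨off, m1, m2, m3, hm⟩ := hMK1 s t b N K i' p ht (sys.ne q K hc) hy hn hU
    refine ⟨p.length, off, m1, m2, m3, mC, ?_, hm, hmC⟩
    cases p with
    | nil => exact absurd (hroot i' hn.1) hU
    | cons c p => simp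
  · left
    push Not at hroot
    obtain ⟨i, hi, hU⟩ := hroot
    have hn : IsNode s t i [] := ⟨hi, by simp⟩
    obtain ⟨off, m1, m2, m3, hm⟩ := hMK1 s t b N K i [] ht (sys.ne q K hc) hy hn hU
    exact ⟨off, m1, m2, m3, hm⟩

end Pool.Agent.H18.ERA
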